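import Pool.Graph.R_seed8.Helper46.A.G3
import Pool.Graph.R_seed8.Helper46.A.F

set_option autoImplicit false

/-!
# Labelled and unlabelled matroids (MP_f46acb_co)
-/

namespace Pool.Agent.Helper25.PAV

open Finset Filter

/-- the matroids on the ground set `Fin n` -/
abbrev Mat (n : ℕ) : Type := {M : Matroid (Fin n) // M.E = Set.univ}

/-- isomorphism of matroids on `Fin n` -/
abbrev Iso (n : ℕ) : Mat n → Mat n → Prop := fun M N =>
  ∃ σ : Equiv.Perm (Fin n), ∀ B : Set (Fin n), M.1.IsBase B ↔ N.1.IsBase (σ '' B)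

/-- the number of labelled matroids on `n` elements with the property `P` -/
noncomputable def labelled (n : ℕ) (P : Matroid (Fin n) → Prop) : ℕ :=
  Nat.card {M : Mat n // P M.1}

/-- the number of unlabelled matroids (isomorphism classes) on `n` elements with the property
`P` -/
noncomputable def unlabelled (n : ℕ) (P : Matroid (Fin n) → Prop) : ℕ :=
  Nat.card {q : Quot (Iso n) // ∃ M : Mat n, q = Quot.mk (Iso n) M ∧ P M.1}

/-- `P` is invariant under isomorphism -/
def Invariant (n : ℕ) (P : Matroid (Fin n) → Prop) : Prop :=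
  ∀ M N : Mat n, Iso n M N → (P M.1 ↔ P N.1)

/-- the action of the permutations -/
noncomputable def act {n : ℕ} (σ : Equiv.Perm (Fin n)) (M : Mat n) : Mat n :=
  ⟨M.1.mapEquiv σ, by
    rw [Matroid.mapEquiv_ground_eq, M.2]
    exact Set.image_univ_of_surjective σ.surjective⟩

theorem act_base {n : ℕ} (σ : Equiv.Perm (Fin n)) (M : Mat n) (B : Set (Fin n)) :
    (act σ M).1.IsBase B ↔ M.1.IsBase (σ.symm '' B) := by
  show (M.1.mapEquiv σ).IsBase B ↔ _
  rw [Matroid.mapEquiv_isBase_iff]

theorem iso_act {n : ℕ} (σ : Equiv.Perm (Fin n)) (M : Mat n) : Iso n M (act σ M) :=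
  ⟨σ, fun B => by rw [act_base, Set.image_image]; simp⟩

theorem ext_base {n : ℕ} {M N : Mat n} (h : ∀ B : Set (Fin n), M.1.IsBase B ↔ N.1.IsBase B) :
    M = N := by
  apply Subtype.ext
  apply Matroid.ext_isBase (by rw [M.2, N.2])
  intro B _
  exact h B

theorem act_eq_of_iso {n : ℕ} {M N : Mat n} {σ : Equiv.Perm (Fin n)}
    (h : ∀ B : Set (Fin n), M.1.IsBase B ↔ N.1.IsBase (σ '' B)) : act σ M = N := by
  apply ext_base
  intro B
  rw [act_base, h, Set.image_image]
  simp

/-- the action on the matroids with an invariant property -/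
noncomputable def actionP {n : ℕ} {P : Matroid (Fin n) → Prop} (hP : Invariant n P) :
    MulAction (Equiv.Perm (Fin n)) {M : Mat n // P M.1} where
  smul σ M := ⟨act σ M.1, (hP _ _ (iso_act σ M.1)).1 M.2⟩
  one_smul M := by
    apply Subtype.ext
    apply ext_base
    intro B
    show (act 1 M.1).1.IsBase B ↔ _
    rw [act_base]
    have h : ((1 : Equiv.Perm (Fin n)).symm '' B) = B := by
      ext x
      constructor
      · rintro ⟨y, hy, rfl⟩
        exact hy
      · intro hx
        exact ⟨x, hx, rfl⟩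
    rw [h]
  mul_smul σ τ M := by
    apply Subtype.ext
    apply ext_base
    intro B
    show (act (σ * τ) M.1).1.IsBase B ↔ (act σ (act τ M.1)).1.IsBase B
    rw [act_base, act_base, act_base, Set.image_image]
    rfl

theorem finMat (n : ℕ) : Finite (Mat n) := Pool.Agent.Helper46.A.F.finX_22726 n

open Pool.Agent.Helper46.A Pool.Agent.Helper46.A.F in
/-- Burnside -/
theorem burnside (n : ℕ) {P : Matroid (Fin n) → Prop} (hP : Invariant n P) :
    labelled n P ≤ unlabelled n P * n.factorial ∧
    unlabelled n P * n.factorial ≤ labelled n P +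
      ∑ σ ∈ (univ : Finset (Equiv.Perm (Fin n))).filter (fun σ => σ ≠ 1),
        ∑ r ∈ range (n + 1), (FixF r σ).card := by
  classical
  haveI : Finite (Mat n) := finMat n
  haveI : Fintype (Mat n) := Fintype.ofFinite _
  haveI : Fintype (XM_22726 n) := Fintype.ofFinite _
  letI := actionP hP
  haveI : Finite (Quotient (MulAction.orbitRel (Equiv.Perm (Fin n)) {M : Mat n // P M.1})) :=
    Quotient.finite _
  haveI : Fintype (Quotient (MulAction.orbitRel (Equiv.Perm (Fin n)) {M : Mat n // P M.1})) :=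
    Fintype.ofFinite _
  have hsm : ∀ (σ : Equiv.Perm (Fin n)) (M : {M : Mat n // P M.1}), (σ • M).1 = act σ M.1 :=
    fun σ M => rfl
  have hb := MulAction.sum_card_fixedBy_eq_card_orbits_mul_card_group (Equiv.Perm (Fin n))
    {M : Mat n // P M.1}
  -- the orbits are the classes
  let φ : Quotient (MulAction.orbitRel (Equiv.Perm (Fin n)) {M : Mat n // P M.1}) →
      {q : Quot (Iso n) // ∃ M : Mat n, q = Quot.mk (Iso n) M ∧ P M.1} :=
    Quotient.lift (fun x => ⟨Quot.mk _ x.1, x.1, rfl, x.2⟩) (by
      intro x y hxy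
      apply Subtype.ext
      show Quot.mk (Iso n) x.1 = Quot.mk (Iso n) y.1
      obtain ⟨σ, hσ⟩ : x ∈ MulAction.orbit (Equiv.Perm (Fin n)) y := hxy
      have h1 : act σ y.1 = x.1 := by rw [← hsm]; exact congrArg Subtype.val hσ
      rw [← h1]
      exact (Quot.sound (iso_act σ y.1)).symm)
  have hφ : Function.Bijective φ := by
    constructor
    · intro a b
      refine Quotient.inductionOn₂ a b fun x y h => ?_
      have h1 : Quot.mk (Iso n) x.1 = Quot.mk (Iso n) y.1 := congrArg Subtype.val h
      obtain ⟨σ, hσ⟩ := ((rr_equiv_22726 n).quot_mk_eq_iff _ _).1 h1.symm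
      apply Quotient.sound
      show x ∈ MulAction.orbit (Equiv.Perm (Fin n)) y
      refine ⟨σ, Subtype.ext ?_⟩
      show act σ y.1 = x.1
      exact act_eq_of_iso hσ
    · rintro ⟨q, M, rfl, hM⟩
      exact ⟨Quotient.mk _ ⟨M, hM⟩, rfl⟩
  have hu : unlabelled n P =
      Fintype.card (Quotient (MulAction.orbitRel (Equiv.Perm (Fin n)) {M : Mat n // P M.1})) := by
    unfold unlabelled
    rw [← Nat.card_eq_of_bijective φ hφ, Nat.card_eq_fintype_card]
  have hg : Fintype.card (Equiv.Perm (Fin n)) = n.factorial := by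
    rw [Fintype.card_perm, Fintype.card_fin]
  rw [← hu, hg] at hb
  have h1 : Fintype.card (MulAction.fixedBy {M : Mat n // P M.1} (1 : Equiv.Perm (Fin n))) =
      labelled n P := by
    unfold labelled
    rw [Nat.card_eq_fintype_card]
    apply Fintype.card_congr
    refine ⟨fun x => x.1, fun x => ⟨x, ?_⟩, fun x => rfl, fun x => rfl⟩
    show (1 : Equiv.Perm (Fin n)) • x = x
    exact one_smul _ _
  have h2 : ∑ σ : Equiv.Perm (Fin n), Fintype.card (MulAction.fixedBy {M : Mat n // P M.1} σ) =
      labelled n P + ∑ σ ∈ (univ : Finset (Equiv.Perm (Fin n))).filter (fun σ => σ ≠ 1),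
        Fintype.card (MulAction.fixedBy {M : Mat n // P M.1} σ) := by
    rw [← h1, ← Finset.add_sum_erase univ _ (Finset.mem_univ (1 : Equiv.Perm (Fin n)))]
    congr 2
    ext σ
    simp
  have h3 : ∑ σ ∈ (univ : Finset (Equiv.Perm (Fin n))).filter (fun σ => σ ≠ 1),
        Fintype.card (MulAction.fixedBy {M : Mat n // P M.1} σ) ≤
      ∑ σ ∈ (univ : Finset (Equiv.Perm (Fin n))).filter (fun σ => σ ≠ 1),
        ∑ r ∈ range (n + 1), (FixF r σ).card := by
    apply Finset.sum_le_sum
    intro σ _
    refine le_trans ?_ (fix_le_22726 σ)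
    rw [← Finset.card_univ]
    refine Finset.card_le_card_of_injOn
      (fun x : MulAction.fixedBy {M : Mat n // P M.1} σ => (x.1.1 : XM_22726 n)) ?_ ?_
    · intro x _
      simp only [Finset.coe_filter, Finset.mem_univ, true_and, Set.mem_setOf_eq]
      intro B
      have hx : act σ x.1.1 = x.1.1 := by rw [← hsm]; exact congrArg Subtype.val x.2
      obtain h4 := (act_base σ x.1.1 (σ '' B))
      rw [hx, Set.image_image] at h4
      simpa using h4.symm
    · intro x _ y _ hxy
      exact Subtype.ext (Subtype.ext hxy)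
  constructor
  · rw [← hb, h2]
    exact Nat.le_add_right _ _
  · rw [← hb, h2]
    exact Nat.add_le_add_left h3 _

theorem ratio_bound {a l x y δ f pu : ℝ} (hl : 0 < l) (hF : 0 < f) (hδ : 0 ≤ δ) (ha : 0 ≤ a)
    (hal : a ≤ l) (hx0 : 0 ≤ x) (hxy : x ≤ δ * l) (hy0 : 0 ≤ y) (hy : y ≤ δ * l)
    (N : ℝ) (hN : 0 < N) (h1 : pu * N = a + x) (h2 : f * N = l + y) :
    |pu / f - a / l| ≤ δ := by
  have e : pu / f - a / l = (x * l - a * y) / (l * (l + y)) := by
    have hne : l + y ≠ 0 := by positivity
    have h3 : pu / f = (a + x) / (l + y) := by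
      rw [← h1, ← h2, mul_div_mul_right _ _ hN.ne']
    rw [h3]
    field_simp
    ring
  rw [e, abs_div, div_le_iff₀ (by positivity), abs_of_pos (a := l * (l + y)) (by positivity)]
  have hm : δ * l * l ≤ δ * (l * (l + y)) := by
    have : 0 ≤ δ * l * y := by positivity
    nlinarith
  refine le_trans (abs_le.2 ⟨?_, ?_⟩) hm
  · have h4 : a * y ≤ l * (δ * l) := mul_le_mul hal hy hy0 hl.le
    have h5 : 0 ≤ x * l := by positivity
    nlinarith
  · have h4 : x * l ≤ δ * l * l := mul_le_mul_of_nonneg_right hxy hl.le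
    have h5 : 0 ≤ a * y := by positivity
    linarith

open Pool.Agent.Helper46.A Pool.Agent.Helper46.A.F in
/-- the ratios for labelled and unlabelled matroids differ by at most `n! / 2 ^ (n ^ 2)` -/
theorem main : ∀ᶠ n : ℕ in atTop, ∀ P : Matroid (Fin n) → Prop, Invariant n P →
    |(unlabelled n P : ℝ) / (unlabelled n fun _ => True) -
      (labelled n P : ℝ) / (labelled n fun _ => True)| ≤ (n.factorial : ℝ) / 2 ^ (n ^ 2) ∧
    |(unlabelled n fun _ => True : ℝ) * n.factorial / (labelled n fun _ => True) - 1| ≤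
      (n.factorial : ℝ) / 2 ^ (n ^ 2) := by
  filter_upwards [Pool.Agent.Helper46.A.fix_small] with n hn P hP
  haveI : Finite (Mat n) := finMat n
  have hT : Invariant n fun _ => True := fun _ _ _ => Iff.rfl
  obtain ⟨b1, b2⟩ := burnside n hP
  obtain ⟨c1, c2⟩ := burnside n hT
  have hs := sumF_22726 n hn
  set S : ℝ := ∑ σ ∈ (univ : Finset (Equiv.Perm (Fin n))).filter (fun σ => σ ≠ 1),
        ∑ r ∈ range (n + 1), ((FixF r σ).card : ℝ) with hS
  have hlT : (labelled n fun _ => True : ℝ) = (Nat.card (XM_22726 n) : ℝ) := by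
    unfold labelled
    rw [Nat.card_congr (Equiv.subtypeUnivEquiv (p := fun _ : Mat n => True) fun _ => trivial)]
  have hmm := mm_le_22726 n
  have hpos : (0 : ℝ) < (labelled n fun _ => True : ℝ) := by
    rw [hlT]
    haveI : Nonempty (XM_22726 n) := ⟨⟨Matroid.loopyOn Set.univ, rfl⟩⟩
    exact_mod_cast Nat.card_pos
  have hP2 : (0 : ℝ) < 2 ^ (n ^ 2) := by positivity
  have hSle : S ≤ (n.factorial : ℝ) / 2 ^ (n ^ 2) * (labelled n fun _ => True : ℝ) := by
    rw [div_mul_eq_mul_div, le_div_iff₀ hP2]
    refine hs.trans ?_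
    rw [hlT]
    exact mul_le_mul_of_nonneg_left hmm (Nat.cast_nonneg _)
  have hle : (labelled n P : ℝ) ≤ (labelled n fun _ => True : ℝ) := by
    unfold labelled
    apply Nat.cast_le.2
    exact Nat.card_le_card_of_injective
      (fun x : {M : Mat n // P M.1} => (⟨x.1, trivial⟩ : {M : Mat n // True}))
      (fun x y h => Subtype.ext (congrArg (fun z : {M : Mat n // True} => z.1) h))
  have b1' : (labelled n P : ℝ) ≤ (unlabelled n P : ℝ) * n.factorial := by exact_mod_cast b1
  have b2' : (unlabelled n P : ℝ) * n.factorial ≤ (labelled n P : ℝ) + S := by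
    rw [hS]; exact_mod_cast b2
  have c1' : (labelled n fun _ => True : ℝ) ≤ (unlabelled n fun _ => True : ℝ) * n.factorial := by
    exact_mod_cast c1
  have c2' : (unlabelled n fun _ => True : ℝ) * n.factorial ≤
      (labelled n fun _ => True : ℝ) + S := by
    rw [hS]; exact_mod_cast c2
  have hfac : (0 : ℝ) < n.factorial := by exact_mod_cast n.factorial_pos
  have hf : (0 : ℝ) < (unlabelled n fun _ => True : ℝ) := by
    by_contra hcon
    have : (unlabelled n fun _ => True : ℝ) * n.factorial ≤ 0 :=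
      mul_nonpos_of_nonpos_of_nonneg (not_lt.1 hcon) hfac.le
    linarith
  constructor
  · refine ratio_bound hpos hf (by positivity) (Nat.cast_nonneg _) hle
      (x := (unlabelled n P : ℝ) * n.factorial - labelled n P)
      (y := (unlabelled n fun _ => True : ℝ) * n.factorial - (labelled n fun _ => True : ℝ))
      (by linarith) (by linarith) (by linarith) (by linarith) n.factorial hfac (by ring) (by ring)
  · rw [abs_le]
    constructor
    · have h1 : 1 ≤ (unlabelled n fun _ => True : ℝ) * n.factorial /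
          (labelled n fun _ => True : ℝ) := by
        rw [le_div_iff₀ hpos]
        linarith
      have h2 : (0 : ℝ) ≤ (n.factorial : ℝ) / 2 ^ (n ^ 2) := by positivity
      linarith
    · rw [sub_le_iff_le_add, div_le_iff₀ hpos]
      nlinarith

end Pool.Agent.Helper25.PAV
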